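import Pool.Agent.helper11.RPQ.SpecU
import Pool.Agent.helper62.QU.All

set_option autoImplicit false

open scoped MatrixGroups ContDiff Topology UpperHalfPlane ComplexConjugate
open UpperHalfPlane MeasureTheory Filter Set

namespace Pool.Agent.RPQ

open Pool.Agent.RS
open Pool.Agent.MS (BA BB st pf gk Dk amk)

theorem MFC_int {Γ : Subgroup SL(2, ℝ)} {F : Set ℍ} (hΓ : QU.SurfaceGroup Γ) (hF : QU.NiceDom Γ F) {g : ℍ → ℝ} (hg : QU.Inv Γ g) :
    IntegrableOn g F := by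
  obtain ⟨m, hm⟩ := (QU.A_BDD Γ F _ hΓ hF hg).1
  exact Measure.integrableOn_of_bounded (M := m) (QU.A_DOB Γ F hΓ hF).2.2.2.1.ne hg.1.aestronglyMeasurable
    (Filter.Eventually.of_forall hm)

theorem MFC_mono {Γ : Subgroup SL(2, ℝ)} {F : Set ℍ} (hΓ : QU.SurfaceGroup Γ) (hF : QU.NiceDom Γ F) {g g' : ℍ → ℝ} (hg : QU.Inv Γ g)
    (hg' : QU.Inv Γ g') (h : ∀ z, g z ≤ g' z) : ∫ z in F, g z ≤ ∫ z in F, g' z :=
  integral_mono (MFC_int hΓ hF hg) (MFC_int hΓ hF hg') h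

theorem MFC_abs {Γ : Subgroup SL(2, ℝ)} {F : Set ℍ} (hΓ : QU.SurfaceGroup Γ) (hF : QU.NiceDom Γ F) {g g' : ℍ → ℝ}
    (hg' : QU.Inv Γ g') (h : ∀ z, |g z| ≤ g' z) : |∫ z in F, g z| ≤ ∫ z in F, g' z := by
  rw [← Real.norm_eq_abs]
  exact norm_integral_le_of_norm_le (MFC_int hΓ hF hg') (Filter.Eventually.of_forall h)

theorem MFC_lin {X : Type} [MeasurableSpace X] (μ : Measure X) (a b d : X → ℝ) (c D : ℝ) (ha : Integrable a μ) (hb : Integrable b μ)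
    (hd : Integrable d μ) : ∫ x, c * a x + D * (b x + d x) ∂μ = c * ∫ x, a x ∂μ + D * ((∫ x, b x ∂μ) + ∫ x, d x ∂μ) := by
  have h1 : Integrable (fun x => c * a x) μ := ha.const_mul c
  have h2 : Integrable (fun x => b x + d x) μ := hb.add hd
  have h3 : Integrable (fun x => D * (b x + d x)) μ := h2.const_mul D
  rw [integral_add h1 h3, integral_const_mul, integral_const_mul, integral_add hb hd]

theorem MFC_mul {Γ : Subgroup SL(2, ℝ)} {g g' : ℍ → ℝ} (hg : QU.Inv Γ g) (hg' : QU.Inv Γ g') : QU.Inv Γ (fun z => g z * g' z) :=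
  ⟨hg.1.mul hg'.1, fun γ z => by
    show g (γ • z) * g' (γ • z) = g z * g' z
    rw [hg.2 γ z, hg'.2 γ z]⟩

theorem MFC_alg (e δ D c M N V T a1 a1' a2 b1 b1' b2 : ℝ) (he : 0 ≤ e) (hδ : 0 ≤ δ) (hD : 1 ≤ D) (hM : 0 ≤ M) (hN : 0 ≤ N)
    (hV : 0 < V) (hT : 0 < T) (h1 : |a2| ≤ e * M) (h2 : |b2| ≤ e * T) (h3 : |a1 - a1'| ≤ 2 * δ * N) (h4 : |b1 - b1'| ≤ 2 * δ * V)
    (h5 : |T - V| ≤ 2 * δ * V) (h6 : |M - N| ≤ 2 * δ * N) (h7 : |a1' - b1' / V * N| ≤ e * N) (h8 : N ≤ 3 * M) (h9 : V ≤ 3 * T)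
    (h10 : 0 ≤ b1') (h11 : b1' ≤ V) :
    |c * M + D * (a1 + a2) - (c * T + D * (b1 + b2)) / T * M| ≤ 24 * D * (e + δ) * M := by
  have e1 : c * M + D * (a1 + a2) - (c * T + D * (b1 + b2)) / T * M =
      D * ((a1 - a1') + (a1' - b1' / V * N) + b1' / V * (N - M) + (b1' / V - b1 / T) * M + a2 - b2 / T * M) := by
    field_simp
    ring
  have q0 : 0 ≤ b1' / V := div_nonneg h10 hV.le
  have q1 : b1' / V ≤ 1 := (div_le_one hV).2 h11
  have q2 : |b1' / V - b1 / T| ≤ 12 * δ := by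
    have e2 : b1' / V - b1 / T = (b1' * (T - V) + (b1' - b1) * V) / (V * T) := by
      field_simp
      ring
    rw [e2, abs_div, abs_of_pos (mul_pos hV hT), div_le_iff₀ (mul_pos hV hT)]
    have e3 : |b1' * (T - V) + (b1' - b1) * V| ≤ V * (2 * δ * V) + 2 * δ * V * V := by
      refine (abs_add_le _ _).trans (add_le_add ?_ ?_)
      · rw [abs_mul, abs_of_nonneg h10]
        exact mul_le_mul h11 h5 (abs_nonneg _) hV.le
      · rw [abs_mul, abs_of_pos hV, abs_sub_comm]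
        exact mul_le_mul_of_nonneg_right h4 hV.le
    refine e3.trans ?_
    have e4 : V * (2 * δ * V) + 2 * δ * V * V = 4 * δ * V * V := by ring
    rw [e4]
    have e5 : 4 * δ * V * V ≤ 4 * δ * V * (3 * T) := mul_le_mul_of_nonneg_left h9 (by positivity)
    calc 4 * δ * V * V ≤ 4 * δ * V * (3 * T) := e5
      _ = 12 * δ * (V * T) := by ring
  have q3 : |b2 / T| ≤ e := by
    rw [abs_div, abs_of_pos hT, div_le_iff₀ hT]
    exact h2
  have t1 : |a1 - a1'| ≤ 6 * δ * M := h3.trans (by nlinarith)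
  have t2 : |a1' - b1' / V * N| ≤ 3 * e * M := h7.trans (by nlinarith)
  have t3 : |b1' / V * (N - M)| ≤ 6 * δ * M := by
    rw [abs_mul, abs_of_nonneg q0, abs_sub_comm]
    calc b1' / V * |M - N| ≤ 1 * (2 * δ * N) := mul_le_mul q1 h6 (abs_nonneg _) zero_le_one
      _ ≤ 6 * δ * M := by nlinarith
  have t4 : |(b1' / V - b1 / T) * M| ≤ 12 * δ * M := by
    rw [abs_mul, abs_of_nonneg hM]
    exact mul_le_mul_of_nonneg_right q2 hM
  have t5 : |b2 / T * M| ≤ e * M := by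
    rw [abs_mul, abs_of_nonneg hM]
    exact mul_le_mul_of_nonneg_right q3 hM
  rw [e1, abs_mul, abs_of_nonneg (by linarith : (0 : ℝ) ≤ D)]
  have t6 : |(a1 - a1') + (a1' - b1' / V * N) + b1' / V * (N - M) + (b1' / V - b1 / T) * M + a2 - b2 / T * M| ≤ 24 * (e + δ) * M := by
    have g1 := abs_le.1 t1
    have g2 := abs_le.1 t2
    have g3 := abs_le.1 t3
    have g4 := abs_le.1 t4
    have g5 := abs_le.1 t5
    have g6 := abs_le.1 h1
    have k1 : 0 ≤ e * M := mul_nonneg he hM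
    have k2 : 0 ≤ δ * M := mul_nonneg hδ hM
    rw [abs_le]
    constructor <;> linarith [g1.1, g1.2, g2.1, g2.2, g3.1, g3.2, g4.1, g4.2, g5.1, g5.2, g6.1, g6.2]
  calc D * |(a1 - a1') + (a1' - b1' / V * N) + b1' / V * (N - M) + (b1' / V - b1 / T) * M + a2 - b2 / T * M|
      ≤ D * (24 * (e + δ) * M) := mul_le_mul_of_nonneg_left t6 (by linarith)
    _ = 24 * D * (e + δ) * M := by ring

theorem MFC_proof : MFC_stmt := by
  intro Γ hΓ
  refine ⟨24, by norm_num, ?_⟩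
  intro F f D e δ c h h' φ hF hf hh hh' hφ hD he hδ hδ1 hfδ hh1 hr hq
  have hV : 0 < (volume F).toReal := ENNReal.toReal_pos (QU.A_DOB Γ F hΓ hF).2.2.1.ne' (QU.A_DOB Γ F hΓ hF).2.2.2.1.ne
  have hD0 : 0 < D := by linarith
  -- invariance
  have iE : QU.Inv Γ (fun z => Real.exp (f z)) := ⟨Real.continuous_exp.comp hf.1, fun γ z => by
    show Real.exp (f (γ • z)) = Real.exp (f z)
    rw [hf.2 γ z]⟩
  have iP : QU.Inv Γ (fun z => ‖φ z‖ ^ 2) := ⟨hφ.1.norm.pow 2, fun γ z => by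
    show ‖φ (γ • z)‖ ^ 2 = ‖φ z‖ ^ 2
    rw [hφ.2 γ z]⟩
  have iPE := MFC_mul iP iE
  have iC : ∀ k : ℝ, QU.Inv Γ (fun _ : ℍ => k) := fun k => ⟨continuous_const, fun _ _ => rfl⟩
  set r : ℍ → ℝ := fun z => (h z - c) / D - h' z with hrdef
  have ir : QU.Inv Γ r := ⟨((hh.1.sub continuous_const).div_const D).sub hh'.1, fun γ z => by
    show (h (γ • z) - c) / D - h' (γ • z) = (h z - c) / D - h' z
    rw [hh.2 γ z, hh'.2 γ z]⟩
  have hdec : ∀ z, h z = c + D * (h' z + r z) := fun z => by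
    show h z = c + D * (h' z + ((h z - c) / D - h' z))
    field_simp
    ring
  have hE1 : ∀ z, |Real.exp (f z) - 1| ≤ 2 * δ := fun z => by
    refine (Real.abs_exp_sub_one_le ((hfδ z).trans hδ1)).trans ?_
    linarith [hfδ z]
  have hE3 : ∀ z, 1 ≤ 3 * Real.exp (f z) := fun z => by
    have h1 : -1 ≤ f z := by
      have := (abs_le.1 ((hfδ z).trans hδ1)).1
      exact this
    have h2 : Real.exp (-1) ≤ Real.exp (f z) := Real.exp_le_exp.2 h1
    have h3 : 1 / 3 ≤ Real.exp (-1) := by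
      rw [Real.exp_neg, ← one_div]
      exact one_div_le_one_div_of_le (Real.exp_pos 1) (by linarith [Real.exp_one_lt_d9])
    linarith
  have hP0 : ∀ z, 0 ≤ ‖φ z‖ ^ 2 := fun z => by positivity
  have hEp : ∀ z, 0 < Real.exp (f z) := fun z => Real.exp_pos _
  -- the integrals
  have I1 : ∫ z in F, h z * ‖φ z‖ ^ 2 * Real.exp (f z) =
      c * (∫ z in F, ‖φ z‖ ^ 2 * Real.exp (f z)) + D * ((∫ z in F, h' z * ‖φ z‖ ^ 2 * Real.exp (f z)) + ∫ z in F, r z * (‖φ z‖ ^ 2 * Real.exp (f z))) := by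
    have j1 := MFC_int hΓ hF iPE
    have j2 := MFC_int hΓ hF (MFC_mul (MFC_mul hh' iP) iE)
    have j3 := MFC_int hΓ hF (MFC_mul ir iPE)
    rw [← MFC_lin _ _ _ _ c D j1 j2 j3]
    refine integral_congr_ae (Filter.Eventually.of_forall fun z => ?_)
    show h z * ‖φ z‖ ^ 2 * Real.exp (f z) = c * (‖φ z‖ ^ 2 * Real.exp (f z)) + D * (h' z * ‖φ z‖ ^ 2 * Real.exp (f z) + r z * (‖φ z‖ ^ 2 * Real.exp (f z)))
    rw [hdec z]
    ring
  have I2 : ∫ z in F, h z * Real.exp (f z) =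
      c * (∫ z in F, Real.exp (f z)) + D * ((∫ z in F, h' z * Real.exp (f z)) + ∫ z in F, r z * Real.exp (f z)) := by
    have j1 := MFC_int hΓ hF iE
    have j2 := MFC_int hΓ hF (MFC_mul hh' iE)
    have j3 := MFC_int hΓ hF (MFC_mul ir iE)
    rw [← MFC_lin _ _ _ _ c D j1 j2 j3]
    refine integral_congr_ae (Filter.Eventually.of_forall fun z => ?_)
    show h z * Real.exp (f z) = c * Real.exp (f z) + D * (h' z * Real.exp (f z) + r z * Real.exp (f z))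
    rw [hdec z]
    ring
  have hVint : ∫ z in F, (1 : ℝ) = (volume F).toReal := by
    rw [setIntegral_const, smul_eq_mul, mul_one]
    rfl
  have hT0 : (volume F).toReal ≤ 3 * ∫ z in F, Real.exp (f z) := by
    rw [← hVint, ← integral_const_mul]
    exact MFC_mono hΓ hF (iC 1) (MFC_mul (iC 3) iE) hE3
  have hT : 0 < ∫ z in F, Real.exp (f z) := by linarith
  rw [I1, I2]
  have hnn : nn F φ = ∫ z in F, ‖φ z‖ ^ 2 := rfl
  have hN0 : 0 ≤ nn F φ := integral_nonneg fun z => hP0 z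
  refine MFC_alg e δ D c (∫ z in F, ‖φ z‖ ^ 2 * Real.exp (f z)) (nn F φ) (volume F).toReal (∫ z in F, Real.exp (f z))
    (∫ z in F, h' z * ‖φ z‖ ^ 2 * Real.exp (f z)) (∫ z in F, h' z * ‖φ z‖ ^ 2) (∫ z in F, r z * (‖φ z‖ ^ 2 * Real.exp (f z)))
    (∫ z in F, h' z * Real.exp (f z)) (∫ z in F, h' z) (∫ z in F, r z * Real.exp (f z)) he hδ hD
    (integral_nonneg fun z => mul_nonneg (hP0 z) (hEp z).le) hN0 hV hT ?_ ?_ ?_ ?_ ?_ ?_ ?_ ?_ hT0 ?_ ?_
  · rw [← integral_const_mul]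
    refine MFC_abs hΓ hF (MFC_mul (iC e) iPE) fun z => ?_
    rw [abs_mul, abs_of_nonneg (mul_nonneg (hP0 z) (hEp z).le)]
    exact mul_le_mul_of_nonneg_right (hr z) (mul_nonneg (hP0 z) (hEp z).le)
  · rw [← integral_const_mul]
    refine MFC_abs hΓ hF (MFC_mul (iC e) iE) fun z => ?_
    rw [abs_mul, abs_of_pos (hEp z)]
    exact mul_le_mul_of_nonneg_right (hr z) (hEp z).le
  · rw [hnn, ← integral_const_mul, ← integral_sub (MFC_int hΓ hF (MFC_mul (MFC_mul hh' iP) iE)) (MFC_int hΓ hF (MFC_mul hh' iP))]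
    refine MFC_abs hΓ hF (MFC_mul (iC (2 * δ)) iP) fun z => ?_
    have e1 : h' z * ‖φ z‖ ^ 2 * Real.exp (f z) - h' z * ‖φ z‖ ^ 2 = h' z * (Real.exp (f z) - 1) * ‖φ z‖ ^ 2 := by ring
    rw [e1, abs_mul, abs_of_nonneg (hP0 z)]
    refine mul_le_mul_of_nonneg_right ?_ (hP0 z)
    rw [abs_mul, abs_of_nonneg (hh1 z).1]
    calc h' z * |Real.exp (f z) - 1| ≤ 1 * (2 * δ) := mul_le_mul (hh1 z).2 (hE1 z) (abs_nonneg _) zero_le_one
      _ = 2 * δ := one_mul _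
  · rw [← hVint, ← integral_const_mul, ← integral_sub (MFC_int hΓ hF (MFC_mul hh' iE)) (MFC_int hΓ hF hh')]
    refine MFC_abs hΓ hF (MFC_mul (iC (2 * δ)) (iC 1)) fun z => ?_
    have e1 : h' z * Real.exp (f z) - h' z = h' z * (Real.exp (f z) - 1) := by ring
    rw [e1, abs_mul, abs_of_nonneg (hh1 z).1]
    calc h' z * |Real.exp (f z) - 1| ≤ 1 * (2 * δ) := mul_le_mul (hh1 z).2 (hE1 z) (abs_nonneg _) zero_le_one
      _ = 2 * δ * 1 := by ring
  · rw [← hVint, ← integral_const_mul, ← integral_sub (MFC_int hΓ hF iE) (MFC_int hΓ hF (iC 1))]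
    refine MFC_abs hΓ hF (MFC_mul (iC (2 * δ)) (iC 1)) fun z => ?_
    rw [mul_one]
    exact hE1 z
  · rw [hnn, ← integral_const_mul, ← integral_sub (MFC_int hΓ hF iPE) (MFC_int hΓ hF iP)]
    refine MFC_abs hΓ hF (MFC_mul (iC (2 * δ)) iP) fun z => ?_
    have e1 : ‖φ z‖ ^ 2 * Real.exp (f z) - ‖φ z‖ ^ 2 = (Real.exp (f z) - 1) * ‖φ z‖ ^ 2 := by ring
    rw [e1, abs_mul, abs_of_nonneg (hP0 z)]
    exact mul_le_mul_of_nonneg_right (hE1 z) (hP0 z)
  · exact hq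
  · rw [hnn, ← integral_const_mul]
    refine MFC_mono hΓ hF iP (MFC_mul (iC 3) iPE) fun z => ?_
    have := mul_le_mul_of_nonneg_left (hE3 z) (hP0 z)
    linarith
  · exact integral_nonneg fun z => (hh1 z).1
  · rw [← hVint]
    exact MFC_mono hΓ hF hh' (iC 1) fun z => (hh1 z).2

end Pool.Agent.RPQ
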