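import Pool.Agent.helper11.RPQ.SpecI

/-!
# Row rpi:QPL (MP_07c750_an): eigenfunctions of the perturbed metric as quasimodes, bounded Lipschitz potentials
-/

set_option autoImplicit false

open scoped MatrixGroups ContDiff Topology UpperHalfPlane ComplexConjugate
open UpperHalfPlane MeasureTheory Filter Set

namespace Pool.Agent.RPQ

open Pool.Agent.RS
open Pool.Agent.MS (BA BB st pf gk Dk amk)

theorem QPL_cont {n : WithTop ℕ∞} {φ : ℍ → ℂ} (h : QU.CD n φ) : Continuous φ := by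
  have h1 : ContinuousOn (QU.onC φ) {w : ℂ | 0 < w.im} := h.continuousOn
  have h2 : Continuous fun z : ℍ => QU.onC φ (z : ℂ) := h1.comp_continuous continuous_coe fun z => z.im_pos
  have h3 : (fun z : ℍ => QU.onC φ (z : ℂ)) = φ := by
    funext z
    unfold QU.onC
    rw [ofComplex_apply]
  rwa [h3] at h2

theorem QPL_nn {Γ : Subgroup SL(2, ℝ)} {F : Set ℍ} (hF : QU.NiceDom Γ F) {φ : ℍ → ℂ} (hφ : Continuous φ)
    {m : ℍ → ℝ} {M : ℝ} (hm : ∀ z, |m z| ≤ M) {ψ : ℍ → ℂ} (hψ : ∀ z, ψ z = ((m z : ℝ) : ℂ) * φ z) :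
    nn F ψ ≤ M ^ 2 * nn F φ := by
  obtain ⟨K, hK, hFK⟩ := hF.rel
  have hi : IntegrableOn (fun z => M ^ 2 * ‖φ z‖ ^ 2) F := by
    have h0 : Continuous fun z => M ^ 2 * ‖φ z‖ ^ 2 := continuous_const.mul (hφ.norm.pow 2)
    exact (h0.continuousOn.integrableOn_compact hK).mono_set hFK
  unfold nn
  rw [← integral_const_mul]
  refine integral_mono_of_nonneg (Filter.Eventually.of_forall fun z => by positivity) hi
    (Filter.Eventually.of_forall fun z => ?_)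
  change ‖ψ z‖ ^ 2 ≤ M ^ 2 * ‖φ z‖ ^ 2
  rw [hψ z, norm_mul, Complex.norm_real, Real.norm_eq_abs, mul_pow]
  exact mul_le_mul_of_nonneg_right (pow_le_pow_left₀ (abs_nonneg _) (hm z) 2) (by positivity)

theorem QPL_pow (c a b δ : ℝ) (hab : a < b) (hδ : 0 < δ) : ∀ᶠ R : ℝ in atTop, c * R ^ a ≤ δ * R ^ b := by
  have h1 : Tendsto (fun R : ℝ => c * R ^ (-(b - a))) atTop (𝓝 0) := by
    have h := (tendsto_rpow_neg_atTop (sub_pos.2 hab)).const_mul c
    rwa [mul_zero] at h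
  filter_upwards [h1.eventually (gt_mem_nhds hδ), eventually_gt_atTop 0] with R h2 hR
  have h3 : R ^ a = R ^ (-(b - a)) * R ^ b := by
    rw [← Real.rpow_add hR]
    congr 1
    ring
  rw [h3, ← mul_assoc]
  exact mul_le_mul_of_nonneg_right (le_of_lt h2) (Real.rpow_nonneg hR.le _)

/-- the numerical facts for large `R` -/
theorem QPL_large (C0 η : ℝ) (hη : 0 < η) (hη1 : η ≤ 1 / 20) :
    ∃ R0 : ℝ, 3 ≤ R0 ∧ ∀ R : ℝ, R0 ≤ R → 2 * C0 * R ^ (-1 + η / 32) ≤ 1 ∧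
      3 * R ^ (99 / 100 : ℝ) + 1 / 4 + 16 * C0 * R ^ (1 + η / 32) ≤ R ^ (1 + η / 8) ∧
      3 * R ^ (99 / 100 : ℝ) + 1 / 4 + (16 * C0 ^ 2 + 7 * C0) * R ^ (9 / 10 : ℝ) ≤ R ^ (1 - 1 / 120 : ℝ) := by
  have e1 := QPL_pow (2 * C0) (-1 + η / 32) 0 1 (by linarith) one_pos
  have e2 := QPL_pow 3 (99 / 100) (1 + η / 8) (1 / 3) (by linarith) (by norm_num)
  have e3 := QPL_pow (1 / 4) 0 (1 + η / 8) (1 / 3) (by linarith) (by norm_num)
  have e4 := QPL_pow (16 * C0) (1 + η / 32) (1 + η / 8) (1 / 3) (by linarith) (by norm_num)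
  have e5 := QPL_pow 3 (99 / 100) (1 - 1 / 120) (1 / 3) (by norm_num) (by norm_num)
  have e6 := QPL_pow (1 / 4) 0 (1 - 1 / 120) (1 / 3) (by norm_num) (by norm_num)
  have e7 := QPL_pow (16 * C0 ^ 2 + 7 * C0) (9 / 10) (1 - 1 / 120) (1 / 3) (by norm_num) (by norm_num)
  obtain ⟨R1, hR1⟩ := (e1.and (e2.and (e3.and (e4.and (e5.and (e6.and e7)))))).exists_forall_of_atTop
  refine ⟨max 3 R1, le_max_left _ _, fun R hR => ?_⟩
  obtain ⟨h1, h2, h3, h4, h5, h6, h7⟩ := hR1 R ((le_max_right _ _).trans hR)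
  rw [Real.rpow_zero] at h1 h3 h6
  exact ⟨by linarith, by linarith, by linarith⟩

theorem QPL_proof (hMOM : MOM_stmt) : QPL_stmt := by
  intro Γ F C0 η hΓ hF hC0 hη hη1
  obtain ⟨R0, hR0, hL⟩ := QPL_large C0 η hη hη1
  refine ⟨R0, by linarith, fun R ϵ t μ V φ hR hQ => ?_⟩
  have hR3 : 3 ≤ R := hR0.trans hR
  have hRp : 0 < R := by linarith
  obtain ⟨l1, l2, l3⟩ := hL R hR
  have hV : ∀ z, |V z| ≤ C0 := hQ.bdd
  have hφc : Continuous φ := QPL_cont hQ.eig.1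
  have hVc : Continuous V := hQ.inv.1
  obtain ⟨E, hE⟩ : ∃ E : ℝ, E = R ^ (-1 + η / 32) := ⟨_, rfl⟩
  have hEp : 0 < E := by rw [hE]; positivity
  have ht : |t| ≤ 2 * E := by
    have h1 : R ^ (-(11 / 10) : ℝ) ≤ E := by
      rw [hE]
      exact Real.rpow_le_rpow_of_exponent_le (by linarith) (by linarith)
    have h2 : |t| ≤ |t - ϵ| + |ϵ| := by
      have h3 := abs_add_le (t - ϵ) ϵ
      rwa [sub_add_cancel] at h3
    rw [abs_of_nonneg hQ.eps0] at h2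
    have h4 := hQ.t0
    have h5 := hQ.eps1
    rw [← hE] at h5
    linarith
  set x : ℍ → ℝ := fun z => t * V z with hx
  have hxb : ∀ z, |x z| ≤ 2 * C0 * E := by
    intro z
    rw [hx]
    change |t * V z| ≤ _
    rw [abs_mul]
    calc |t| * |V z| ≤ (2 * E) * C0 := mul_le_mul ht (hV z) (abs_nonneg _) (by positivity)
      _ = 2 * C0 * E := by ring
  have hx1 : ∀ z, |x z| ≤ 1 := fun z => (hxb z).trans (by rw [hE]; exact l1)
  -- bounds for μ
  have hsq : Real.sqrt μ ^ 2 = μ := Real.sq_sqrt hQ.mu0.le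
  have hr1 : R ^ (-(1 / 100) : ℝ) ≤ 1 := Real.rpow_le_one_of_one_le_of_nonpos (by linarith) (by norm_num)
  have hrp : 0 < R ^ (-(1 / 100) : ℝ) := by positivity
  have hs0 : 0 ≤ Real.sqrt μ := Real.sqrt_nonneg μ
  have hs1 : Real.sqrt μ ≤ R + 1 := by
    have := (abs_le.mp hQ.mu1).2
    linarith
  have hμR : |μ - R ^ 2| ≤ 3 * R ^ (99 / 100 : ℝ) := by
    have h1 : μ - R ^ 2 = (Real.sqrt μ - R) * (Real.sqrt μ + R) := by
      nth_rewrite 1 [← hsq]
      ring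
    rw [h1, abs_mul, abs_of_nonneg (by linarith : 0 ≤ Real.sqrt μ + R)]
    have h2 : Real.sqrt μ + R ≤ 3 * R := by linarith
    calc |Real.sqrt μ - R| * (Real.sqrt μ + R) ≤ R ^ (-(1 / 100) : ℝ) * (3 * R) :=
          mul_le_mul hQ.mu1 h2 (by linarith) hrp.le
      _ = 3 * R ^ (99 / 100 : ℝ) := by
          have h3 : R ^ (99 / 100 : ℝ) = R ^ (-(1 / 100) : ℝ) * R := by
            nth_rewrite 3 [← Real.rpow_one R]
            rw [← Real.rpow_add hRp]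
            congr 1
            norm_num
          rw [h3]
          ring
  have hμ4 : μ ≤ 4 * R ^ 2 := by
    rw [← hsq]
    nlinarith
  have hμ0 : 0 ≤ μ := hQ.mu0.le
  have hRE : R ^ 2 * E = R ^ (1 + η / 32) := by
    rw [hE, ← Real.rpow_natCast, ← Real.rpow_add hRp]
    congr 1
    push_cast
    ring
  have hRE1 : R * E = R ^ (η / 32) := by
    rw [hE]
    nth_rewrite 1 [← Real.rpow_one R]
    rw [← Real.rpow_add hRp]
    congr 1
    ring
  -- the multipliers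
  set m1 : ℍ → ℝ := fun z => μ * Real.exp (x z) - 1 / 4 - R ^ 2 with hm1
  set m2 : ℍ → ℝ := fun z => m1 z - R ^ 2 * (ϵ * V z) with hm2
  have hm1c : Continuous m1 := by
    rw [hm1, hx]
    fun_prop
  have hm2c : Continuous m2 := by
    rw [hm2]
    fun_prop
  have hVi : ∀ (γ : Γ) (z : ℍ), V (γ • z) = V z := hQ.inv.2
  have hxi : ∀ (γ : Γ) (z : ℍ), x (γ • z) = x z := by
    intro γ z
    rw [hx]
    change t * V (γ • z) = t * V z
    rw [hVi]
  have hm1i : ∀ (γ : Γ) (z : ℍ), m1 (γ • z) = m1 z := by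
    intro γ z
    rw [hm1]
    change μ * Real.exp (x (γ • z)) - 1 / 4 - R ^ 2 = μ * Real.exp (x z) - 1 / 4 - R ^ 2
    rw [hxi]
  have hm2i : ∀ (γ : Γ) (z : ℍ), m2 (γ • z) = m2 z := by
    intro γ z
    rw [hm2]
    change m1 (γ • z) - R ^ 2 * (ϵ * V (γ • z)) = m1 z - R ^ 2 * (ϵ * V z)
    rw [hm1i, hVi]
  have hφi : ∀ (γ : Γ) (z : ℍ), φ (γ • z) = φ z := hQ.eig.2.1
  have hm1b : ∀ z, |m1 z| ≤ R ^ (1 + η / 8) := by
    intro z
    have h1 : |Real.exp (x z) - 1| ≤ 2 * |x z| := Real.abs_exp_sub_one_le (hx1 z)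
    have h2 : m1 z = (μ - R ^ 2) + (-(1 / 4)) + μ * (Real.exp (x z) - 1) := by
      rw [hm1]
      ring
    rw [h2]
    refine (abs_add_three _ _ _).trans ?_
    rw [abs_mul, abs_of_nonneg hμ0]
    have h3 : |(-(1 / 4) : ℝ)| = 1 / 4 := by
      rw [abs_neg, abs_of_nonneg (by norm_num)]
    rw [h3]
    have h4 : μ * |Real.exp (x z) - 1| ≤ 16 * C0 * R ^ (1 + η / 32) := by
      calc μ * |Real.exp (x z) - 1| ≤ 4 * R ^ 2 * (2 * (2 * C0 * E)) :=
            mul_le_mul hμ4 (h1.trans (by linarith [hxb z])) (abs_nonneg _) (by positivity)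
        _ = 16 * C0 * (R ^ 2 * E) := by ring
        _ = _ := by rw [hRE]
    linarith
  have hm2b : ∀ z, |m2 z| ≤ R ^ (1 - 1 / 120 : ℝ) := by
    intro z
    have h1 : |Real.exp (x z) - 1 - x z| ≤ x z ^ 2 := Real.abs_exp_sub_one_sub_id_le (hx1 z)
    have h2 : m2 z = (μ - R ^ 2) + (-(1 / 4)) + (μ * (Real.exp (x z) - 1 - x z) + (μ - R ^ 2) * x z + R ^ 2 * ((t - ϵ) * V z)) := by
      rw [hm2, hm1, hx]
      ring
    rw [h2]
    refine (abs_add_three _ _ _).trans ?_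
    have h3 : |(-(1 / 4) : ℝ)| = 1 / 4 := by
      rw [abs_neg, abs_of_nonneg (by norm_num)]
    rw [h3]
    have hsm : R ^ (η / 32) ≤ R ^ (9 / 10 : ℝ) := Real.rpow_le_rpow_of_exponent_le (by linarith) (by linarith)
    have hsm2 : (R ^ (η / 32)) ^ 2 ≤ R ^ (9 / 10 : ℝ) := by
      rw [← Real.rpow_natCast, ← Real.rpow_mul hRp.le]
      refine Real.rpow_le_rpow_of_exponent_le (by linarith) ?_
      push_cast
      linarith
    have h4 : |μ * (Real.exp (x z) - 1 - x z)| ≤ 16 * C0 ^ 2 * R ^ (9 / 10 : ℝ) := by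
      rw [abs_mul, abs_of_nonneg hμ0]
      have h5 : x z ^ 2 ≤ (2 * C0 * E) ^ 2 := by
        rw [← sq_abs (x z)]
        exact pow_le_pow_left₀ (abs_nonneg _) (hxb z) 2
      calc μ * |Real.exp (x z) - 1 - x z| ≤ 4 * R ^ 2 * (2 * C0 * E) ^ 2 :=
            mul_le_mul hμ4 (h1.trans h5) (abs_nonneg _) (by positivity)
        _ = 16 * C0 ^ 2 * (R * E) ^ 2 := by ring
        _ = 16 * C0 ^ 2 * (R ^ (η / 32)) ^ 2 := by rw [hRE1]
        _ ≤ _ := by gcongr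
    have h6 : |(μ - R ^ 2) * x z| ≤ 6 * C0 * R ^ (9 / 10 : ℝ) := by
      rw [abs_mul]
      have h7 : R ^ (99 / 100 : ℝ) ≤ R := by
        nth_rewrite 2 [← Real.rpow_one R]
        exact Real.rpow_le_rpow_of_exponent_le (by linarith) (by norm_num)
      calc |μ - R ^ 2| * |x z| ≤ (3 * R) * (2 * C0 * E) :=
            mul_le_mul (hμR.trans (by linarith)) (hxb z) (abs_nonneg _) (by positivity)
        _ = 6 * C0 * (R * E) := by ring
        _ = 6 * C0 * R ^ (η / 32) := by rw [hRE1]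
        _ ≤ _ := by gcongr
    have h9 : |R ^ 2 * ((t - ϵ) * V z)| ≤ C0 * R ^ (9 / 10 : ℝ) := by
      rw [abs_mul, abs_mul, abs_of_nonneg (by positivity : (0 : ℝ) ≤ R ^ 2)]
      calc R ^ 2 * (|t - ϵ| * |V z|) ≤ R ^ 2 * (R ^ (-(11 / 10) : ℝ) * C0) := by
            refine mul_le_mul_of_nonneg_left ?_ (by positivity)
            exact mul_le_mul hQ.t0 (hV z) (abs_nonneg _) (by positivity)
        _ = C0 * (R ^ 2 * R ^ (-(11 / 10) : ℝ)) := by ring
        _ = C0 * R ^ (9 / 10 : ℝ) := by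
            rw [← Real.rpow_natCast, ← Real.rpow_add hRp]
            congr 2
            push_cast
            norm_num
    have h8 := abs_add_three (μ * (Real.exp (x z) - 1 - x z)) ((μ - R ^ 2) * x z) (R ^ 2 * ((t - ϵ) * V z))
    have h10 : (16 * C0 ^ 2 + 7 * C0) * R ^ (9 / 10 : ℝ) = 16 * C0 ^ 2 * R ^ (9 / 10 : ℝ) + 6 * C0 * R ^ (9 / 10 : ℝ) + C0 * R ^ (9 / 10 : ℝ) := by
      ring
    linarith
  refine ⟨⟨hφc, hφi⟩, fun z => ((m1 z : ℝ) : ℂ) * φ z, ⟨?_, ?_⟩, ?_, ?_, fun z => ((m2 z : ℝ) : ℂ) * φ z, ⟨?_, ?_⟩, ?_, ?_⟩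
  · exact (Complex.continuous_ofReal.comp hm1c).mul hφc
  · intro γ z
    change ((m1 (γ • z) : ℝ) : ℂ) * φ (γ • z) = ((m1 z : ℝ) : ℂ) * φ z
    rw [hm1i, hφi]
  · intro z
    rw [hQ.eig.2.2 z, ← add_mul, ← Complex.ofReal_add]
    congr 2
    rw [hm1]
    ring
  · refine (QPL_nn hF hφc hm1b (fun z => rfl)).trans (le_of_eq ?_)
    congr 1
    rw [← Real.rpow_natCast, ← Real.rpow_mul hRp.le]
    congr 1
    push_cast
    ring
  · exact (Complex.continuous_ofReal.comp hm2c).mul hφc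
  · intro γ z
    change ((m2 (γ • z) : ℝ) : ℂ) * φ (γ • z) = ((m2 z : ℝ) : ℂ) * φ z
    rw [hm2i, hφi]
  · refine (QPL_nn hF hφc hm2b (fun z => rfl)).trans (le_of_eq ?_)
    congr 1
    rw [← Real.rpow_natCast, ← Real.rpow_mul hRp.le]
    congr 1
    push_cast
    ring
  · intro z
    rw [hm2]
    push_cast
    ring

end Pool.Agent.RPQ
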