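import Pool.Agent.helper11.RPQ.SpecI
import Pool.Agent.helper62.RS.All

/-!
# Row rpi:VSL (MP_07c750, project RPI): freezing a Lipschitz potential
-/

set_option autoImplicit false

open scoped MatrixGroups ContDiff Topology UpperHalfPlane ComplexConjugate
open UpperHalfPlane MeasureTheory Filter Set

namespace Pool.Agent.RPQ

open Pool.Agent.RS
open Pool.Agent.MS (BA BB st pf gk Dk amk)

theorem VSL_cosh (y : ℝ) : 1 + y ^ 2 / 2 ≤ Real.cosh y := by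
  have h1 : Real.cosh y = 1 + 2 * Real.sinh (y / 2) ^ 2 := by
    have e : y = 2 * (y / 2) := by ring
    conv_lhs => rw [e]
    rw [Real.cosh_two_mul, Real.cosh_sq]
    ring
  have h2 : (y / 2) ^ 2 ≤ Real.sinh (y / 2) ^ 2 := by
    rw [sq_le_sq]
    rcases le_total 0 (y / 2) with h | h
    · have := Real.self_le_sinh_iff.2 h
      rw [abs_of_nonneg h, abs_of_nonneg (h.trans this)]
      exact this
    · have h' : 0 ≤ -(y / 2) := by linarith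
      have := Real.self_le_sinh_iff.2 h'
      rw [Real.sinh_neg] at this
      rw [abs_of_nonpos h, abs_of_nonpos (by linarith)]
      exact this
  rw [h1]
  nlinarith

/-- small `tt` means small distance -/
theorem VSL_dist (z w : ℍ) (ρ : ℝ) (hρ : 0 < ρ) (h : QU.tt z w / ρ ^ 2 < 1 / 64) : dist z w ≤ ρ := by
  have h1 := (QU.A_TTT).1 z w
  have h2 := VSL_cosh (dist z w)
  have h3 : QU.tt z w < 1 / 64 * ρ ^ 2 := (div_lt_iff₀ (by positivity)).1 h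
  have h4 : dist z w ^ 2 ≤ ρ ^ 2 := by nlinarith [sq_nonneg ρ]
  exact abs_le_of_sq_le_sq' h4 hρ.le |>.2

/-- integrability of the mollifier kernel -/
theorem VSL_i {κ : ℝ → ℝ} {ρ : ℝ} (hκ : QU.RK (mo κ ρ)) (z : ℍ) (f : ℍ → ℝ) (hf : Continuous f) :
    Integrable (fun w' : ℍ => mo κ ρ (QU.tt z w') * f w') := by
  have h1 : Continuous (mo κ ρ) := hκ.1.continuous
  have h2 : Continuous (fun p : ℍ × ℍ => QU.tt p.1 p.2) := (QU.A_TTT).2.2.2.2.1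
  have h3 : Continuous (fun w' : ℍ => QU.tt z w') := h2.comp (continuous_const.prodMk continuous_id)
  have h4 : HasCompactSupport (fun w' : ℍ => mo κ ρ (QU.tt z w')) := by
    have h5 := (QU.A_LAK).2.2.1 (mo κ ρ) z hκ
    have h6 : (fun w' : ℍ => mo κ ρ (QU.tt z w')) = fun w' : ℍ => mo κ ρ (QU.tt w' z) := by
      funext w'
      rw [(QU.A_TTT).2.2.1]
    rw [h6]; exact h5
  exact ((h1.comp h3).mul hf).integrable_of_hasCompactSupport h4.mul_right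

/-- the mollified function is close to the function -/
theorem VSL_close {κ : ℝ → ℝ} {ρ C0 : ℝ} (hMO : MO κ) (hρ : 0 < ρ) (hκ : QU.RK (mo κ ρ)) (hm : ∀ z : ℍ, ∫ w : ℍ, mo κ ρ (QU.tt z w) = 1)
    (V : ℍ → ℝ) (hV : Continuous V) (hC0 : 0 ≤ C0) (hL : ∀ z w, |V z - V w| ≤ C0 * dist z w) (z : ℍ) :
    |V z - QU.conv (mo κ ρ) V z| ≤ C0 * ρ := by
  have hmo : ∀ s, 0 ≤ mo κ ρ s := fun s => div_nonneg (hMO.nonneg _) (by positivity)
  have i1 : Integrable (fun w : ℍ => mo κ ρ (QU.tt z w) * V z) := VSL_i hκ z (fun _ => V z) continuous_const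
  have i2 : Integrable (fun w : ℍ => mo κ ρ (QU.tt z w) * V w) := VSL_i hκ z V hV
  have i3 : Integrable (fun w : ℍ => mo κ ρ (QU.tt z w) * (C0 * ρ)) := VSL_i hκ z (fun _ => C0 * ρ) continuous_const
  have e1 : V z - QU.conv (mo κ ρ) V z = ∫ w : ℍ, (mo κ ρ (QU.tt z w) * V z - mo κ ρ (QU.tt z w) * V w) := by
    rw [integral_sub i1 i2, integral_mul_const, hm z, one_mul]
    rfl
  have e2 : C0 * ρ = ∫ w : ℍ, mo κ ρ (QU.tt z w) * (C0 * ρ) := by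
    rw [integral_mul_const, hm z, one_mul]
  rw [e1, e2, ← Real.norm_eq_abs]
  refine norm_integral_le_of_norm_le i3 (Eventually.of_forall fun w => ?_)
  rw [← mul_sub, Real.norm_eq_abs, abs_mul, abs_of_nonneg (hmo _)]
  by_cases h : QU.tt z w / ρ ^ 2 < 1 / 64
  · refine mul_le_mul_of_nonneg_left ?_ (hmo _)
    exact (hL z w).trans (mul_le_mul_of_nonneg_left (VSL_dist z w ρ hρ h) hC0)
  · have h0 : mo κ ρ (QU.tt z w) = 0 := by
      unfold mo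
      rw [hMO.supp _ (not_lt.1 h), zero_div]
    rw [h0, zero_mul, zero_mul]

/-- linearity in the second argument -/
theorem VSL_Wadd (f φ1 φ2 : ℍ → ℂ) (hf : Continuous f) (hf2 : HasCompactSupport f) (h1 : Continuous φ1)
    (h2 : Continuous φ2) (g : SL(2, ℝ)) : Wf f (fun z => φ1 z + φ2 z) g = Wf f φ1 g + Wf f φ2 g := by
  have hφ1 : Continuous (fun z : ℍ => φ1 (g • z)) := h1.comp (continuous_const_smul g)
  have hφ2 : Continuous (fun z : ℍ => φ2 (g • z)) := h2.comp (continuous_const_smul g)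
  have i1 : Integrable (fun z : ℍ => f z * φ1 (g • z)) := (hf.mul hφ1).integrable_of_hasCompactSupport hf2.mul_right
  have i2 : Integrable (fun z : ℍ => f z * φ2 (g • z)) := (hf.mul hφ2).integrable_of_hasCompactSupport hf2.mul_right
  unfold Wf
  rw [← integral_add i1 i2]
  congr 1
  funext z
  ring

/-- packets are continuous with compact support -/
theorem VSL_pk {r : ℝ} {c : ℍ → ℂ} (hc : TB (1 / 4) c) : Continuous (pk r c) ∧ HasCompactSupport (pk r c) := by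
  refine ⟨?_, ((Pool.Agent.RS.A_FL0).2.1 _ r c hc).2⟩
  have h3 := (Pool.Agent.RS.A_FL0).1 (1 / 4) c hc
  have h4 := h3.2.2.2.2.2.2
  have h5 : Continuous (fun z : ℍ => ((z.im : ℝ) : ℂ) ^ ((1 / 2 : ℂ) + (r : ℂ) * Complex.I)) := by
    refine Continuous.cpow (Complex.continuous_ofReal.comp UpperHalfPlane.continuous_im) continuous_const fun z => ?_
    exact Or.inl (by rw [Complex.ofReal_re]; exact z.im_pos)
  exact h4.mul h5

/-- squares of continuous invariant functions are integrable -/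
theorem VSL_int (Γ : Subgroup SL(2, ℝ)) (F : Set ℍ) (hΓ : QU.SurfaceGroup Γ) (hFd : QU.NiceDom Γ F) (u : SL(2, ℝ) → ℂ)
    (hu : InvG Γ u) : Integrable (fun g => ‖u g‖ ^ 2) (mG.restrict (dG F)) := by
  obtain ⟨m, hm⟩ := (A_GBD Γ ℂ u hΓ hu).1
  have hfin := (A_GFD Γ F hΓ hFd).1.2.2.1
  have : IsFiniteMeasure (mG.restrict (dG F)) := ⟨by rwa [Measure.restrict_apply_univ]⟩
  refine Integrable.of_bound (hu.1.norm.pow 2).aestronglyMeasurable (m ^ 2) (Eventually.of_forall fun x => ?_)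
  rw [Real.norm_of_nonneg (by positivity)]
  exact pow_le_pow_left₀ (norm_nonneg _) (hm x) 2

theorem VSL_nn {F : Set ℍ} {Γ : Subgroup SL(2, ℝ)} (hΓ : QU.SurfaceGroup Γ) (hFd : QU.NiceDom Γ F) (D : ℍ → ℝ) (φ : ℍ → ℂ) (b : ℝ)
    (hD : ∀ z, |D z| ≤ b) (hφ : InvC Γ φ) : nn F (fun z => ((D z : ℝ) : ℂ) * φ z) ≤ b ^ 2 * nn F φ := by
  have hb : ∃ m : ℝ, ∀ z, ‖φ z‖ ≤ m := by
    obtain ⟨m, hm⟩ := (A_GBD Γ ℂ (fun g => φ (g • I)) hΓ ⟨hφ.1.comp (continuous_id.smul continuous_const), fun γ g => by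
      show φ (((γ : SL(2, ℝ)) * g) • I) = φ (g • I)
      rw [mul_smul]
      exact hφ.2 γ _⟩).1
    refine ⟨m, fun z => ?_⟩
    obtain ⟨g, hg⟩ := (QU.A_TTT).2.2.2.2.2.2.2 I z
    rw [← hg]
    exact hm g
  obtain ⟨m, hm⟩ := hb
  obtain ⟨K, hK, hFK⟩ := hFd.rel
  have hfin : volume F < ⊤ := (measure_mono hFK).trans_lt hK.measure_lt_top
  have hfm : IsFiniteMeasure ((volume : Measure ℍ).restrict F) := ⟨by rwa [Measure.restrict_apply_univ]⟩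
  have i1 : Integrable (fun z => ‖φ z‖ ^ 2) ((volume : Measure ℍ).restrict F) := by
    refine Integrable.of_bound (hφ.1.norm.pow 2).aestronglyMeasurable (m ^ 2) (Eventually.of_forall fun x => ?_)
    rw [Real.norm_of_nonneg (by positivity)]
    exact pow_le_pow_left₀ (norm_nonneg _) (hm x) 2
  unfold nn
  rw [← integral_const_mul]
  refine integral_mono_of_nonneg (Eventually.of_forall fun x => by positivity) (i1.const_mul _) (Eventually.of_forall fun z => ?_)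
  show ‖((D z : ℝ) : ℂ) * φ z‖ ^ 2 ≤ b ^ 2 * ‖φ z‖ ^ 2
  rw [norm_mul, Complex.norm_real, Real.norm_eq_abs, mul_pow]
  exact mul_le_mul_of_nonneg_right (pow_le_pow_left₀ (abs_nonneg _) (hD z) 2) (by positivity)

theorem VSL_sum {X : Type*} [MeasurableSpace X] {μ : Measure X} (x q l e : X → ℂ)
    (hq : Integrable (fun h => ‖q h‖ ^ 2) μ) (hl : Integrable (fun h => ‖l h‖ ^ 2) μ) (he : Integrable (fun h => ‖e h‖ ^ 2) μ)
    (h : ∀ h, ‖x h‖ ≤ ‖q h‖ + ‖l h‖ + ‖e h‖) :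
    ∫ h, ‖x h‖ ^ 2 ∂μ ≤ 3 * ((∫ h, ‖q h‖ ^ 2 ∂μ) + (∫ h, ‖l h‖ ^ 2 ∂μ) + (∫ h, ‖e h‖ ^ 2 ∂μ)) := by
  have i12 : Integrable (fun h => ‖q h‖ ^ 2 + ‖l h‖ ^ 2) μ := hq.add hl
  have i123 : Integrable (fun h => ‖q h‖ ^ 2 + ‖l h‖ ^ 2 + ‖e h‖ ^ 2) μ := i12.add he
  calc ∫ h, ‖x h‖ ^ 2 ∂μ ≤ ∫ h, 3 * (‖q h‖ ^ 2 + ‖l h‖ ^ 2 + ‖e h‖ ^ 2) ∂μ := by
        refine integral_mono_of_nonneg (Eventually.of_forall fun x => by positivity) (i123.const_mul _) (Eventually.of_forall fun y => ?_)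
        simp only []
        have h1 := pow_le_pow_left₀ (norm_nonneg _) (h y) 2
        refine h1.trans ?_
        nlinarith [sq_nonneg (‖q y‖ - ‖l y‖), sq_nonneg (‖q y‖ - ‖e y‖), sq_nonneg (‖l y‖ - ‖e y‖)]
    _ = _ := by
      rw [integral_const_mul, integral_add i12 he, integral_add hq hl]

theorem VSL_proof (hVSP : VSP_stmt) (hF1 : F1_stmt) (hMOM : MOM_stmt) (hCWB : CWB_stmt) : VSL_stmt := by
  intro Γ F α β C0 η hΓ hFd hα hβ hC0 hη hη1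
  obtain ⟨⟨κ, hκ⟩, hM⟩ := hMOM
  obtain ⟨K, R0, hK, hR0, hS⟩ := hVSP Γ F α β κ C0 η hΓ hFd hα hβ hκ hC0 hη hη1
  obtain ⟨R1, hR1, hF⟩ := hF1 α β hα hβ
  have h8 : (1 : ℝ) ≤ (8 : ℝ) ^ (8 / η) := Real.one_le_rpow (by norm_num) (by positivity)
  refine ⟨3 * (K + 4 * C0 ^ 2), max (max R0 R1) ((8 : ℝ) ^ (8 / η)), by positivity, h8.trans (le_max_right _ _), ?_⟩
  intro R w V φ hR hw1 hw0 hV hVb hVL hφ
  have hRR0 : R0 ≤ R := ((le_max_left _ _).trans (le_max_left _ _)).trans hR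
  have hRR1 : R1 ≤ R := ((le_max_right _ _).trans (le_max_left _ _)).trans hR
  have hR8 : (8 : ℝ) ^ (8 / η) ≤ R := (le_max_right _ _).trans hR
  have hRge : 1 ≤ R := h8.trans hR8
  have hRpos : 0 < R := by linarith
  set ρ : ℝ := R ^ (-(η / 8)) with hρd
  have hρ0 : 0 < ρ := Real.rpow_pos_of_pos hRpos _
  have hρ8 : ρ ≤ 1 / 8 := by
    have h5 : ((8 : ℝ) ^ (8 / η)) ^ (η / 8) = 8 := by
      rw [← Real.rpow_mul (by norm_num)]
      have : 8 / η * (η / 8) = 1 := by field_simp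
      rw [this, Real.rpow_one]
    have h6 : (8 : ℝ) ≤ R ^ (η / 8) :=
      h5.symm.le.trans (Real.rpow_le_rpow (by positivity) hR8 (by positivity))
    rw [hρd, Real.rpow_neg hRpos.le, one_div]
    exact inv_anti₀ (by norm_num) h6
  obtain ⟨hRK, hmass, -⟩ := hM κ hκ ρ hρ0
  set V' : ℍ → ℝ := QU.conv (mo κ ρ) V with hV'
  have hV'c : Continuous V' := (QU.A_CVB ℝ).2.2.2.2.2.1 (mo κ ρ) V hRK hV.1
  have hMol : Mol Γ κ ρ C0 V' := ⟨V, hV, hVb, fun z => rfl⟩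
  have hcl : ∀ z, |V z - V' z| ≤ C0 * ρ := fun z => VSL_close hκ hρ0 hRK hmass V hV.1 hC0 hVL z
  have hV'i : ∀ (γ : Γ) (z : ℍ), V' ((γ : SL(2, ℝ)) • z) = V' z := by
    intro γ z
    have h1 := (QU.A_CVB ℝ).1 (mo κ ρ) V (γ : SL(2, ℝ)) z
    rw [hV', ← h1]
    unfold QU.conv
    refine integral_congr_ae (Eventually.of_forall fun w => ?_)
    show mo κ ρ (QU.tt z w) • V ((γ : SL(2, ℝ)) • w) = mo κ ρ (QU.tt z w) • V w
    rw [show V ((γ : SL(2, ℝ)) • w) = V w from hV.2 γ w]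
  set l : ℝ := R ^ (-η) with hl
  have hl0 : 0 < l := Real.rpow_pos_of_pos hRpos _
  have hl1 : l ≤ 1 := Real.rpow_le_one_of_one_le_of_nonpos hRge (by linarith)
  have hl8 : R ^ (-(1 / 8) : ℝ) ≤ l := Real.rpow_le_rpow_of_exponent_le hRge (by linarith)
  have hwpos : 0 < w := lt_of_lt_of_le (Real.rpow_pos_of_pos hRpos _) hw1
  have hwle : w ≤ 1 := hw0.trans (Real.rpow_le_one_of_one_le_of_nonpos hRge (by norm_num))
  have hTB : TB (1 / 4) (cw β α w l) := (hCWB α β w l hα hβ hwpos hwle hl0 hl1).2.2.2.2.2.2.1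
  obtain ⟨hP, hPs⟩ := VSL_pk (r := R) hTB
  have hN : 0 ≤ nn F φ := integral_nonneg fun z => by positivity
  -- the three functions
  set D : ℍ → ℝ := fun z => V z - V' z with hD
  have hDc : Continuous D := hV.1.sub hV'c
  have hDφ : InvC Γ (fun z => ((D z : ℝ) : ℂ) * φ z) := by
    refine ⟨(Complex.continuous_ofReal.comp hDc).mul hφ.1, fun γ z => ?_⟩
    show ((V ((γ : SL(2, ℝ)) • z) - V' ((γ : SL(2, ℝ)) • z) : ℝ) : ℂ) * φ ((γ : SL(2, ℝ)) • z) = ((V z - V' z : ℝ) : ℂ) * φ z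
    rw [hV'i γ z, show V ((γ : SL(2, ℝ)) • z) = V z from hV.2 γ z, show φ ((γ : SL(2, ℝ)) • z) = φ z from hφ.2 γ z]
  have hV'φ : InvC Γ (fun z => ((V' z : ℝ) : ℂ) * φ z) := by
    refine ⟨(Complex.continuous_ofReal.comp hV'c).mul hφ.1, fun γ z => ?_⟩
    show ((V' ((γ : SL(2, ℝ)) • z) : ℝ) : ℂ) * φ ((γ : SL(2, ℝ)) • z) = ((V' z : ℝ) : ℂ) * φ z
    rw [hV'i γ z, show φ ((γ : SL(2, ℝ)) • z) = φ z from hφ.2 γ z]
  have gQ : InvG Γ (fun g => QQ β α w l R φ g) := (A_GWB Γ _ φ hΓ hP hPs hφ).1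
  have gD : InvG Γ (fun g => Wf (pk R (cw β α w l)) (fun z => ((D z : ℝ) : ℂ) * φ z) g) := (A_GWB Γ _ _ hΓ hP hPs hDφ).1
  have gV : InvG Γ (fun g => Wf (pk R (cw β α w l)) (fun z => ((V' z : ℝ) : ℂ) * φ z) g) := (A_GWB Γ _ _ hΓ hP hPs hV'φ).1
  have cI : Continuous (fun g : SL(2, ℝ) => g • I) := continuous_id.smul continuous_const
  have gDQ : InvG Γ (fun g => ((D (g • I) : ℝ) : ℂ) * QQ β α w l R φ g) := by
    refine ⟨(Complex.continuous_ofReal.comp (hDc.comp cI)).mul gQ.1, fun γ g => ?_⟩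
    show ((V (((γ : SL(2, ℝ)) * g) • I) - V' (((γ : SL(2, ℝ)) * g) • I) : ℝ) : ℂ) * QQ β α w l R φ ((γ : SL(2, ℝ)) * g) =
      ((V (g • I) - V' (g • I) : ℝ) : ℂ) * QQ β α w l R φ g
    rw [mul_smul, hV'i γ, show V ((γ : SL(2, ℝ)) • (g • I)) = V (g • I) from hV.2 γ _]
    rw [show QQ β α w l R φ ((γ : SL(2, ℝ)) * g) = QQ β α w l R φ g from gQ.2 γ g]
  have gE : InvG Γ (fun g => Wf (pk R (cw β α w l)) (fun z => ((V' z : ℝ) : ℂ) * φ z) g - ((V' (g • I) : ℝ) : ℂ) * QQ β α w l R φ g) := by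
    refine ⟨gV.1.sub ((Complex.continuous_ofReal.comp (hV'c.comp cI)).mul gQ.1), fun γ g => ?_⟩
    show Wf (pk R (cw β α w l)) (fun z => ((V' z : ℝ) : ℂ) * φ z) ((γ : SL(2, ℝ)) * g) - ((V' (((γ : SL(2, ℝ)) * g) • I) : ℝ) : ℂ) * QQ β α w l R φ ((γ : SL(2, ℝ)) * g) =
      Wf (pk R (cw β α w l)) (fun z => ((V' z : ℝ) : ℂ) * φ z) g - ((V' (g • I) : ℝ) : ℂ) * QQ β α w l R φ g
    rw [mul_smul, hV'i γ]
    rw [show QQ β α w l R φ ((γ : SL(2, ℝ)) * g) = QQ β α w l R φ g from gQ.2 γ g,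
      show Wf (pk R (cw β α w l)) (fun z => ((V' z : ℝ) : ℂ) * φ z) ((γ : SL(2, ℝ)) * g) = Wf (pk R (cw β α w l)) (fun z => ((V' z : ℝ) : ℂ) * φ z) g from gV.2 γ g]
  -- the decomposition
  have hdec : ∀ g : SL(2, ℝ), ‖Wf (pk R (cw β α w l)) (fun z => ((V z : ℝ) : ℂ) * φ z) g - ((V (g • I) : ℝ) : ℂ) * QQ β α w l R φ g‖ ≤
      ‖Wf (pk R (cw β α w l)) (fun z => ((V' z : ℝ) : ℂ) * φ z) g - ((V' (g • I) : ℝ) : ℂ) * QQ β α w l R φ g‖ +
      ‖Wf (pk R (cw β α w l)) (fun z => ((D z : ℝ) : ℂ) * φ z) g‖ + ‖((D (g • I) : ℝ) : ℂ) * QQ β α w l R φ g‖ := by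
    intro g
    have e1 : Wf (pk R (cw β α w l)) (fun z => ((V z : ℝ) : ℂ) * φ z) g =
        Wf (pk R (cw β α w l)) (fun z => ((V' z : ℝ) : ℂ) * φ z) g + Wf (pk R (cw β α w l)) (fun z => ((D z : ℝ) : ℂ) * φ z) g := by
      rw [← VSL_Wadd _ _ _ hP hPs hV'φ.1 hDφ.1 g]
      congr 1
      funext z
      show ((V z : ℝ) : ℂ) * φ z = ((V' z : ℝ) : ℂ) * φ z + ((V z - V' z : ℝ) : ℂ) * φ z
      push_cast
      ring
    have e2 : ((V (g • I) : ℝ) : ℂ) = ((V' (g • I) : ℝ) : ℂ) + ((D (g • I) : ℝ) : ℂ) := by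
      show ((V (g • I) : ℝ) : ℂ) = ((V' (g • I) : ℝ) : ℂ) + ((V (g • I) - V' (g • I) : ℝ) : ℂ)
      push_cast
      ring
    rw [e1, e2]
    have e3 : Wf (pk R (cw β α w l)) (fun z => ((V' z : ℝ) : ℂ) * φ z) g + Wf (pk R (cw β α w l)) (fun z => ((D z : ℝ) : ℂ) * φ z) g -
        (((V' (g • I) : ℝ) : ℂ) + ((D (g • I) : ℝ) : ℂ)) * QQ β α w l R φ g =
        (Wf (pk R (cw β α w l)) (fun z => ((V' z : ℝ) : ℂ) * φ z) g - ((V' (g • I) : ℝ) : ℂ) * QQ β α w l R φ g) +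
        Wf (pk R (cw β α w l)) (fun z => ((D z : ℝ) : ℂ) * φ z) g - ((D (g • I) : ℝ) : ℂ) * QQ β α w l R φ g := by ring
    rw [e3]
    exact (norm_sub_le _ _).trans (add_le_add (norm_add_le _ _) le_rfl)
  have hsum := VSL_sum (μ := mG.restrict (dG F)) _ _ _ _ (VSL_int Γ F hΓ hFd _ gE) (VSL_int Γ F hΓ hFd _ gD) (VSL_int Γ F hΓ hFd _ gDQ) hdec
  have hq2 : ∀ u : ℍ → ℂ, InvC Γ u → R * qn F (cw β α w l) R u ≤ 2 * nn F u := by
    intro u hu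
    refine (hF Γ F R w l hΓ hFd hRR1 hw1 hw0 hl8 hl1 u hu).trans ?_
    refine mul_le_mul_of_nonneg_right ?_ (integral_nonneg fun z => by positivity)
    have : R ^ (-(1 / 40) : ℝ) ≤ 1 := Real.rpow_le_one_of_one_le_of_nonpos hRge (by norm_num)
    linarith
  have hρ2 : ρ ^ 2 = R ^ (-(η / 4)) := by
    rw [hρd, ← Real.rpow_natCast, ← Real.rpow_mul hRpos.le]
    congr 1
    push_cast
    ring
  have b1 := hS R w ρ V' φ hRR0 hw1 hw0 le_rfl hρ8 hMol hφ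
  have b2 : R * ∫ g, ‖Wf (pk R (cw β α w l)) (fun z => ((D z : ℝ) : ℂ) * φ z) g‖ ^ 2 ∂(mG.restrict (dG F)) ≤ 2 * ((C0 * ρ) ^ 2 * nn F φ) :=
    (hq2 _ hDφ).trans (mul_le_mul_of_nonneg_left (VSL_nn hΓ hFd D φ _ hcl hφ) (by norm_num))
  have b3 : R * ∫ g, ‖((D (g • I) : ℝ) : ℂ) * QQ β α w l R φ g‖ ^ 2 ∂(mG.restrict (dG F)) ≤ (C0 * ρ) ^ 2 * (2 * nn F φ) := by
    have h1 : ∫ g, ‖((D (g • I) : ℝ) : ℂ) * QQ β α w l R φ g‖ ^ 2 ∂(mG.restrict (dG F)) ≤ (C0 * ρ) ^ 2 * qn F (cw β α w l) R φ := by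
      unfold qn iR
      rw [← integral_const_mul]
      refine integral_mono_of_nonneg (Eventually.of_forall fun x => by positivity) ((VSL_int Γ F hΓ hFd _ gQ).const_mul _) (Eventually.of_forall fun g => ?_)
      show ‖((D (g • I) : ℝ) : ℂ) * QQ β α w l R φ g‖ ^ 2 ≤ (C0 * ρ) ^ 2 * ‖QQ β α w l R φ g‖ ^ 2
      rw [norm_mul, Complex.norm_real, Real.norm_eq_abs, mul_pow]
      exact mul_le_mul_of_nonneg_right (pow_le_pow_left₀ (abs_nonneg _) (hcl _) 2) (by positivity)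
    calc R * ∫ g, ‖((D (g • I) : ℝ) : ℂ) * QQ β α w l R φ g‖ ^ 2 ∂(mG.restrict (dG F)) ≤ R * ((C0 * ρ) ^ 2 * qn F (cw β α w l) R φ) :=
          mul_le_mul_of_nonneg_left h1 hRpos.le
      _ = (C0 * ρ) ^ 2 * (R * qn F (cw β α w l) R φ) := by ring
      _ ≤ _ := mul_le_mul_of_nonneg_left (hq2 φ hφ) (by positivity)
  have b1' : R * ∫ g, ‖Wf (pk R (cw β α w l)) (fun z => ((V' z : ℝ) : ℂ) * φ z) g - ((V' (g • I) : ℝ) : ℂ) * QQ β α w l R φ g‖ ^ 2 ∂(mG.restrict (dG F)) ≤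
      K * R ^ (-(η / 4)) * nn F φ := by
    have h1 := mul_le_mul_of_nonneg_left b1 hRpos.le
    have h2 : R * (K * R ^ (-η) / R * nn F φ) = K * R ^ (-η) * nn F φ := by field_simp
    rw [h2] at h1
    refine le_trans h1 ?_
    refine mul_le_mul_of_nonneg_right ?_ hN
    refine mul_le_mul_of_nonneg_left ?_ hK.le
    exact Real.rpow_le_rpow_of_exponent_le hRge (by linarith)
  rw [mul_pow, hρ2] at b2 b3
  have hfin := mul_le_mul_of_nonneg_left hsum hRpos.le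
  have hgoal : R * iR F (fun g => ‖Wf (pk R (cw β α w l)) (fun z => ((V z : ℝ) : ℂ) * φ z) g - ((V (g • I) : ℝ) : ℂ) * QQ β α w l R φ g‖ ^ 2) ≤
      3 * (K + 4 * C0 ^ 2) * R ^ (-(η / 4)) * nn F φ := by
    refine le_trans hfin ?_
    nlinarith [b1', b2, b3]
  rw [div_mul_eq_mul_div, le_div_iff₀ hRpos, mul_comm]
  exact hgoal

end Pool.Agent.RPQ
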