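import Pool.Agent.helper29.RPQ.SpecP
import Pool.Agent.helper97.RS.CV1
import Pool.Agent.helper64.MS.STB

set_option autoImplicit false

open scoped MatrixGroups ContDiff Topology UpperHalfPlane ComplexConjugate
open UpperHalfPlane MeasureTheory Filter Set

namespace Pool.Agent.RPQ

open Pool.Agent.RS
open Pool.Agent.MS (BA BB st pf gk Dk amk STB_proof)

theorem CWB_st (β : ℝ → ℝ) (w : ℝ) (hw : 0 < w) (x : ℝ) :
    st (Real.log w) β x = w ^ (-(1 / 2) : ℝ) * β (x / w) := by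
  unfold st
  have h1 : Real.exp (-(Real.log w / 2)) = w ^ (-(1 / 2) : ℝ) := by
    rw [Real.rpow_def_of_pos hw]
    congr 1
    ring
  have h2 : Real.exp (-Real.log w) * x = x / w := by
    rw [Real.exp_neg, Real.exp_log hw, div_eq_inv_mul]
  rw [h1, h2]

theorem CWB_sc (α : ℝ → ℝ) (l : ℝ) (hl : 0 < l) (h : BA (1 / 8) α) : BA (l / 8) (sc l α) := by
  obtain ⟨⟨h1, h2⟩, h3, h4⟩ := h
  refine ⟨⟨?_, ?_⟩, ?_, ?_⟩
  · unfold sc
    exact (h1.comp (contDiff_id.div_const l)).div_const l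
  · intro x hx
    unfold sc at hx
    have h5 : α (x / l) ≠ 0 := by
      intro h0
      rw [h0, zero_div] at hx
      exact hx rfl
    have h6 := h2 _ h5
    rw [abs_div, abs_of_pos hl, div_le_iff₀ hl] at h6
    linarith
  · intro x
    exact div_nonneg (h3 _) hl.le
  · unfold sc
    have h5 : ∫ x, α (x / l) / l = l⁻¹ * ∫ x, α (x / l) := by
      rw [← integral_const_mul]
      refine integral_congr_ae (Filter.Eventually.of_forall fun x => ?_)
      show α (x / l) / l = l⁻¹ * α (x / l)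
      rw [div_eq_inv_mul]
    rw [h5, Measure.integral_comp_div, h4, abs_of_pos hl, smul_eq_mul, mul_one, inv_mul_cancel₀ hl.ne']

theorem CWB_proof : CWB_stmt := by
  intro α β w l hα hβ hw hw1 hl hl1
  obtain ⟨_, _, _, s4, s5, _⟩ := STB_proof
  have e1 : Real.exp (Real.log w) * (1 / 8) = w / 8 := by
    rw [Real.exp_log hw]
    ring
  have a1 : BB (w / 8) (st (Real.log w) β) := by
    have := s4 (1 / 8) (Real.log w) β hβ
    rwa [e1] at this
  have a2 : BA (l / 8) (sc l α) := CWB_sc α l hl hα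
  have a3 : BB (1 / 8) (st (Real.log w) β) := (s5 (w / 8) (1 / 8) _ (by linarith)).2.2 a1
  have a4 : BA (1 / 8) (sc l α) := (s5 (l / 8) (1 / 8) _ (by linarith)).2.1 a2
  have c1 := CV1.2.2 (1 / 8) (sc l α) (st (Real.log w) β) a4.1 a3.1
  have c2 := CV1.2.2 (1 / 4) (sc l α) (st (Real.log w) β) ((s5 (1 / 8) (1 / 4) _ (by norm_num)).1 a4.1)
    ((s5 (1 / 8) (1 / 4) _ (by norm_num)).1 a3.1)
  refine ⟨CWB_st β w hw, a1, a2, a3, a4, c1.1, c2.1, ?_, c1.2.1, (CV1.2.1 _ c2.1).1⟩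
  intro z
  exact Complex.conj_ofReal _

end Pool.Agent.RPQ
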