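import Pool.Agent.helper29.RPQ.SpecP
import Pool.Agent.helper62.RS.All
import Pool.Agent.helper79.MS.SCH

set_option autoImplicit false

open scoped MatrixGroups ContDiff Topology UpperHalfPlane ComplexConjugate
open UpperHalfPlane MeasureTheory Filter Set

namespace Pool.Agent.RPQ

open Pool.Agent.RS
open Pool.Agent.MS (BA BB st pf gk Dk amk)

/-- Cauchy-Schwarz -/
theorem SCF_cs {X : Type} [MeasurableSpace X] (μ : Measure X) (a b : X → ℂ)
    (ha : Integrable (fun x => ‖a x‖ ^ 2) μ) (hb : Integrable (fun x => ‖b x‖ ^ 2) μ) :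
    ‖∫ x, a x * b x ∂μ‖ ^ 2 ≤ (∫ x, ‖a x‖ ^ 2 ∂μ) * ∫ x, ‖b x‖ ^ 2 ∂μ := by
  set A : ℝ := ∫ x, ‖a x‖ ^ 2 ∂μ with hA
  set B : ℝ := ∫ x, ‖b x‖ ^ 2 ∂μ with hB
  set N : ℝ := ‖∫ x, a x * b x ∂μ‖ with hN
  have hA0 : 0 ≤ A := integral_nonneg fun x => by positivity
  have hB0 : 0 ≤ B := integral_nonneg fun x => by positivity
  have hN0 : 0 ≤ N := norm_nonneg _
  have key : ∀ k : ℝ, 0 ≤ A * (k * k) + (-(2 * N)) * k + B := by
    intro k
    rcases le_or_gt k 0 with hk | hk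
    · nlinarith [mul_nonneg hA0 (mul_self_nonneg k), mul_nonneg hN0 (neg_nonneg.2 hk)]
    · have h2 : N ≤ ∫ x, (k * ‖a x‖ ^ 2 + k⁻¹ * ‖b x‖ ^ 2) / 2 ∂μ := by
        rw [hN]
        refine norm_integral_le_of_norm_le (((ha.const_mul k).add (hb.const_mul k⁻¹)).div_const 2) ?_
        refine Filter.Eventually.of_forall fun x => ?_
        have h5 : ‖a x * b x‖ ≤ (k * ‖a x‖ ^ 2 + k⁻¹ * ‖b x‖ ^ 2) / 2 := by
          rw [norm_mul]
          have h3 : 0 ≤ k⁻¹ * (k * ‖a x‖ - ‖b x‖) ^ 2 := by positivity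
          have h4 : k⁻¹ * (k * ‖a x‖ - ‖b x‖) ^ 2 = k * ‖a x‖ ^ 2 + k⁻¹ * ‖b x‖ ^ 2 - 2 * (‖a x‖ * ‖b x‖) := by
            field_simp
            ring
          linarith
        exact h5
      have h3 : ∫ x, (k * ‖a x‖ ^ 2 + k⁻¹ * ‖b x‖ ^ 2) / 2 ∂μ = (k * A + k⁻¹ * B) / 2 := by
        have h4 := integral_add (ha.const_mul k) (hb.const_mul k⁻¹)
        rw [integral_div, h4, integral_const_mul, integral_const_mul]
      rw [h3] at h2
      have h4 : k * N ≤ k * ((k * A + k⁻¹ * B) / 2) := mul_le_mul_of_nonneg_left h2 hk.le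
      have h5 : k * ((k * A + k⁻¹ * B) / 2) = (k * k * A + B) / 2 := by
        field_simp
      rw [h5] at h4
      linarith
  have h := discrim_le_zero key
  unfold discrim at h
  nlinarith

theorem SCF_cj {Γ : Subgroup SL(2, ℝ)} {u : ℍ → ℂ} (hu : InvC Γ u) : InvC Γ (fun z => conj (u z)) :=
  ⟨Complex.continuous_conj.comp hu.1, fun γ z => by
    show conj (u (γ • z)) = conj (u z)
    rw [hu.2 γ z]⟩

theorem SCF_intF {Γ : Subgroup SL(2, ℝ)} {F : Set ℍ} (hΓ : QU.SurfaceGroup Γ) (hF : QU.NiceDom Γ F) {u : ℍ → ℂ} (hu : InvC Γ u) :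
    IntegrableOn (fun z => ‖u z‖ ^ 2) F := by
  have h0 : QU.Inv Γ (fun z => ‖u z‖) := ⟨hu.1.norm, fun γ z => by
    show ‖u (γ • z)‖ = ‖u z‖
    rw [hu.2 γ z]⟩
  obtain ⟨m, hm⟩ := (QU.A_BDD Γ F _ hΓ hF h0).1
  refine Measure.integrableOn_of_bounded (M := m ^ 2) (QU.A_DOB Γ F hΓ hF).2.2.2.1.ne (hu.1.norm.pow 2).aestronglyMeasurable ?_
  refine Filter.Eventually.of_forall fun g => ?_
  rw [Real.norm_of_nonneg (by positivity)]
  have := hm g
  rw [abs_norm] at this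
  exact pow_le_pow_left₀ (norm_nonneg _) this 2

theorem SCF_intG {Γ : Subgroup SL(2, ℝ)} {F : Set ℍ} (hΓ : QU.SurfaceGroup Γ) (hF : QU.NiceDom Γ F) {u : SL(2, ℝ) → ℂ} (hu : InvG Γ u) :
    IntegrableOn (fun g => ‖u g‖ ^ 2) (dG F) mG := by
  obtain ⟨m, hm⟩ := (A_GBD Γ ℂ u hΓ hu).1
  refine Measure.integrableOn_of_bounded (M := m ^ 2) (A_GFD Γ F hΓ hF).1.2.2.1.ne (hu.1.norm.pow 2).aestronglyMeasurable ?_
  refine Filter.Eventually.of_forall fun g => ?_
  rw [Real.norm_of_nonneg (by positivity)]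
  exact pow_le_pow_left₀ (norm_nonneg _) (hm g) 2

theorem SCF_proof : SCF_stmt := by
  intro Γ F f S hΓ hF hf hfc hS hSb u hu
  have hcf : Continuous (fun z => conj (f z)) := Complex.continuous_conj.comp hf
  have hcfs : HasCompactSupport (fun z => conj (f z)) := by
    apply hfc.comp_left (g := fun z : ℂ => conj z)
    exact map_zero _
  have hv := (A_GWB Γ f u hΓ hf hfc hu).1
  set v : SL(2, ℝ) → ℂ := Wf f u with hvdef
  have hvb := (A_GBD Γ ℂ v hΓ hv).1
  have hvm : Measurable v := by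
    have := A_GLC.2.1
    exact hv.1.measurable
  have hyn : ∀ w : ℍ → ℂ, InvC Γ w → ∫ g in dG F, ‖Wf (fun z => conj (f z)) w g‖ ^ 2 ∂mG ≤ (∫ z : ℍ, ‖conj (f z)‖) ^ 2 * ∫ z in F, ‖w z‖ ^ 2 :=
    fun w hw => A_GYN Γ F _ w hΓ hF hcf hcfs hw
  obtain ⟨hW, hdual, -, -⟩ := A_GDU Γ F (fun z => conj (f z)) ((∫ z : ℍ, ‖conj (f z)‖) ^ 2) hΓ hF hcf hcfs (by positivity) hyn v v hvm hvm hvb hvb
  set W : ℍ → ℂ := sy Γ F (fun z => conj (f z)) v with hWdef
  have hWc := SCF_cj hW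
  have huc := SCF_cj hu
  have e1 : ∀ g, Wf (fun z => conj (f z)) (fun z => conj (u z)) g = conj (v g) := fun g => by
    rw [hvdef]
    exact ((A_GWB Γ f u hΓ hf hfc hu).2.2 g).symm
  have e2 : ∀ g, Wf (fun z => conj (f z)) (fun z => conj (W z)) g = conj (Wf f W g) := fun g =>
    ((A_GWB Γ f W hΓ hf hfc hW).2.2 g).symm
  have hWf := (A_GWB Γ f W hΓ hf hfc hW).1
  set A : ℝ := iR F (fun g => ‖v g‖ ^ 2) with hAdef
  have hA0 : 0 ≤ A := integral_nonneg fun g => by positivity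
  have hnW0 : 0 ≤ nn F W := integral_nonneg fun g => by positivity
  have hnu0 : 0 ≤ nn F u := integral_nonneg fun g => by positivity
  -- Schur
  have hsch : iR F (fun g => ‖Wf f W g‖ ^ 2) ≤ S * S * A := by
    have h := MS.SCH_proof Γ F f f v univ univ S S hΓ hF hf hfc hf hfc hvm hvb hv.2 MeasurableSet.univ MeasurableSet.univ
      (fun _ _ => by simp only [mem_univ]) (fun _ _ => mem_univ _) hS hS (fun h => by
        simp only [mem_univ, setOf_true, Measure.restrict_univ]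
        exact hSb) (fun h => by
        simp only [mem_univ, setOf_true, Measure.restrict_univ]
        exact hSb)
    rw [inter_univ] at h
    exact h
  -- the two dualities
  have d1 : ((A : ℝ) : ℂ) = ∫ z in F, W z * conj (u z) := by
    rw [hdual _ huc, hAdef]
    unfold iR
    rw [← integral_complex_ofReal]
    refine integral_congr_ae (Filter.Eventually.of_forall fun g => ?_)
    show ((‖v g‖ ^ 2 : ℝ) : ℂ) = v g * Wf (fun z => conj (f z)) (fun z => conj (u z)) g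
    rw [e1 g, Complex.mul_conj, Complex.normSq_eq_norm_sq]
  have d2 : ((nn F W : ℝ) : ℂ) = ∫ g in dG F, v g * conj (Wf f W g) ∂mG := by
    have h1 := hdual _ hWc
    have h2 : ∫ z in F, W z * conj (W z) = ((nn F W : ℝ) : ℂ) := by
      unfold nn
      rw [← integral_complex_ofReal]
      refine integral_congr_ae (Filter.Eventually.of_forall fun g => ?_)
      show W g * conj (W g) = ((‖W g‖ ^ 2 : ℝ) : ℂ)
      rw [Complex.mul_conj, Complex.normSq_eq_norm_sq]
    rw [h2] at h1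
    rw [h1]
    refine integral_congr_ae (Filter.Eventually.of_forall fun g => ?_)
    show v g * Wf (fun z => conj (f z)) (fun z => conj (W z)) g = v g * conj (Wf f W g)
    rw [e2 g]
  have c1 : A ^ 2 ≤ nn F W * nn F u := by
    have h := SCF_cs (volume.restrict F) W (fun z => conj (u z)) (SCF_intF hΓ hF hW) (SCF_intF hΓ hF huc)
    have h2 : ∀ z, ‖(fun z => conj (u z)) z‖ ^ 2 = ‖u z‖ ^ 2 := fun z => by
      show ‖conj (u z)‖ ^ 2 = ‖u z‖ ^ 2
      rw [RCLike.norm_conj]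
    simp only [h2] at h
    rw [← d1, Complex.norm_real, Real.norm_of_nonneg hA0] at h
    exact h
  have c2 : nn F W ^ 2 ≤ A * (S * S * A) := by
    have h := SCF_cs (mG.restrict (dG F)) v (fun g => conj (Wf f W g)) (SCF_intG hΓ hF hv) (by
      have h3 := SCF_intG hΓ hF hWf
      have h4 : (fun g => ‖(fun g => conj (Wf f W g)) g‖ ^ 2) = fun g => ‖Wf f W g‖ ^ 2 := by
        funext g
        show ‖conj (Wf f W g)‖ ^ 2 = ‖Wf f W g‖ ^ 2
        rw [RCLike.norm_conj]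
      rw [h4]
      exact h3)
    have h2 : ∀ g, ‖(fun g => conj (Wf f W g)) g‖ ^ 2 = ‖Wf f W g‖ ^ 2 := fun g => by
      show ‖conj (Wf f W g)‖ ^ 2 = ‖Wf f W g‖ ^ 2
      rw [RCLike.norm_conj]
    simp only [h2] at h
    rw [← d2, Complex.norm_real, Real.norm_of_nonneg hnW0] at h
    exact h.trans (mul_le_mul_of_nonneg_left hsch hA0)
  have c3 : nn F W ≤ S * A := by
    have h : nn F W ^ 2 ≤ (S * A) ^ 2 := by
      calc nn F W ^ 2 ≤ A * (S * S * A) := c2
        _ = (S * A) ^ 2 := by ring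
    exact (pow_le_pow_iff_left₀ hnW0 (mul_nonneg hS hA0) two_ne_zero).1 h
  rcases hA0.eq_or_lt with h | h
  · rw [← h]
    exact mul_nonneg hS hnu0
  · have h5 : A * A ≤ A * (S * nn F u) := by
      calc A * A = A ^ 2 := by ring
        _ ≤ nn F W * nn F u := c1
        _ ≤ S * A * nn F u := mul_le_mul_of_nonneg_right c3 hnu0
        _ = A * (S * nn F u) := by ring
    exact le_of_mul_le_mul_left h5 h

end Pool.Agent.RPQ
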